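import Pool.Agent.H987.Y.StA
import Pool.Graph.R_seed8.TH369.AN.RES

/-! Project Y of helper987, part K2: change of coordinates. -/

set_option autoImplicit false

open scoped BigOperators InnerProductSpace Topology
open Filter MeasureTheory

namespace Pool.Agent.H215.Y987

open Pool.Agent.Y662.TR (LL Cf Mw dv hu clp lmk lmk_apply ll_ext ll_summable dv_apply sub_coord
  smul_coord)
open Pool.Agent.TH369.AN (Rz rz_eq rz_uniq)
open Pool.Agent.H987.Z (Rs Gr Fr gZ HV)
open Pool.Agent.H987.Y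

theorem ker_comp {ι κ : Type} (e : ι ≃ κ) {k : κ → κ → ℝ} {h : ℝ} (hk : Ker h k) :
    Ker h (fun x y => k (e x) (e y)) := by
  refine ⟨hk.h0, fun x y => hk.sy _ _, fun x => ?_, fun x => ?_⟩
  · exact (e.summable_iff (f := fun w => |k (e x) w|)).2 (hk.sm (e x))
  · rw [e.tsum_eq (fun w => |k (e x) w|)]
    exact hk.le (e x)

theorem eqv (h1 : S_op) : Pool.Agent.H987.Y.S_eqv := by
  intro ι κ e k h hk
  have hk' := ker_comp e hk
  refine ⟨hk', fun z x y hz => ?_⟩
  obtain ⟨a1, -, a3, -⟩ := h1 κ k h hk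
  obtain ⟨b1, -, b3, -⟩ := h1 ι (fun x y => k (e x) (e y)) h hk'
  obtain ⟨φ, hφ⟩ : ∃ φ, φ = Rz (Op k) z (dv (e y)) := ⟨_, rfl⟩
  have hφ2 : Op k φ - z • φ = dv (e y) := by
    rw [hφ]
    exact rz_eq _ a3.sa z hz _
  have hs : Summable fun x : ι => ‖φ (e x)‖ ^ 2 :=
    (e.summable_iff (f := fun w => ‖φ w‖ ^ 2)).2 (ll_summable φ)
  have key : Op (fun x y => k (e x) (e y)) (lmk (fun x => φ (e x)) hs) -
      z • lmk (fun x => φ (e x)) hs = dv y := by
    apply ll_ext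
    intro w
    rw [sub_coord, smul_coord, (b1 _ w).2]
    have h2 : (∑' v, ((k (e w) (e v) : ℝ) : ℂ) * (lmk (fun x => φ (e x)) hs) v) =
        Op k φ (e w) := by
      rw [(a1 φ (e w)).2]
      exact e.tsum_eq (fun v => ((k (e w) v : ℝ) : ℂ) * φ v)
    rw [h2, lmk_apply]
    have h3 : (Op k φ - z • φ : LL κ) (e w) = dv (e y) (e w) := by rw [hφ2]
    rw [sub_coord, smul_coord, dv_apply] at h3
    rw [h3, dv_apply]
    by_cases hw : w = y
    · rw [if_pos hw, if_pos (congrArg e hw)]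
    · rw [if_neg hw, if_neg (fun h' => hw (e.injective h'))]
  have h4 := rz_uniq _ b3.sa z hz _ _ key
  show Rz (Op fun x y => k (e x) (e y)) z (dv y) x = Rz (Op k) z (dv (e y)) (e x)
  rw [← h4, ← hφ, lmk_apply]

end Pool.Agent.H215.Y987
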